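import Pool.Agent.K1H62.FI.Stm

set_option autoImplicit false

namespace Pool.Agent.K1H58.FI

open SimpleGraph Pool.Agent.K1H62.FI

theorem spi_nn (n n' : ℕ) : ¬ spi.Adj (n, none) (n', none) := by
  simp [spi, SimpleGraph.fromRel_adj]

theorem spi_ns (n n' l d : ℕ) : spi.Adj (n, none) (n', some (l, d)) ↔ n = n' ∧ d = 0 := by
  simp [spi, SimpleGraph.fromRel_adj]

theorem spi_ss (n n' l d l' d' : ℕ) : spi.Adj (n, some (l, d)) (n', some (l', d')) ↔
    n = n' ∧ l = l' ∧ (d + 1 = d' ∨ d' + 1 = d) := by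
  simp only [spi, SimpleGraph.fromRel_adj, ne_eq, Prod.mk.injEq, Option.some.injEq, reduceCtorEq,
    false_and, false_or]
  constructor
  · rintro ⟨-, ⟨h1, a, b, ⟨h2, h3⟩, h4, h5⟩ | ⟨h1, a, b, ⟨h2, h3⟩, h4, h5⟩⟩
    · exact ⟨h1, by omega, by omega⟩
    · exact ⟨h1.symm, by omega, by omega⟩
  · rintro ⟨h1, h2, h3 | h3⟩
    · exact ⟨by omega, Or.inl ⟨h1, l, d, ⟨rfl, rfl⟩, h2.symm, h3.symm⟩⟩
    · exact ⟨by omega, Or.inr ⟨h1.symm, l', d', ⟨rfl, rfl⟩, h2, h3.symm⟩⟩

theorem t_SPL : S_SPL := by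
  intro m G v q h
  have key : ∀ (n n' l d : ℕ), d < m →
      (G.Adj (v n) (q n' (n' + 1 + l) d) ↔ n = n' ∧ d = 0) := by
    intro n n' l d hd
    rcases eq_or_ne n n' with h1 | h1
    · subst h1
      rw [h.vi n (n + 1 + l) d (by omega) hd]
      simp
    · rcases eq_or_ne n (n' + 1 + l) with h2 | h2
      · have := h.vj n' (n' + 1 + l) d (by omega) hd
        rw [h2]
        constructor
        · intro h3
          exact absurd h3 this
        · rintro ⟨h3, -⟩
          omega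
      · constructor
        · intro h3
          exact absurd h3 (h.cln.vq n n' (n' + 1 + l) d (by omega) hd h1 h2)
        · rintro ⟨h3, -⟩
          exact absurd h3 h1
  refine ⟨fun u => match u.2 with
    | none => v u.1
    | some (l, d) => q u.1 (u.1 + 1 + l) d, ?_, ?_⟩
  · rintro ⟨n, _ | ⟨l, d⟩⟩ ⟨n', _ | ⟨l', d'⟩⟩ hu hv huv
    · have : n = n' := h.fam.inj huv
      rw [this]
    · exact absurd huv.symm (h.fam.br n' (n' + 1 + l') d' n (by omega) (hv l' d' rfl))
    · exact absurd huv (h.fam.br n (n + 1 + l) d n' (by omega) (hu l d rfl))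
    · obtain ⟨h1, h2, h3⟩ := h.fam.dis n (n + 1 + l) d n' (n' + 1 + l') d' (by omega) (by omega)
        (hu l d rfl) (hv l' d' rfl) huv
      have h4 : l = l' := by omega
      rw [h1, h4, h3]
  · rintro ⟨n, _ | ⟨l, d⟩⟩ ⟨n', _ | ⟨l', d'⟩⟩ hu hv
    · exact ⟨fun h1 => absurd h1 (spi_nn n n'), fun h1 => absurd h1 (h.cln.vv n n')⟩
    · rw [spi_ns]
      exact (key n n' l' d' (hv l' d' rfl)).symm
    · rw [SimpleGraph.adj_comm, spi_ns, SimpleGraph.adj_comm]
      exact (key n' n l d (hu l d rfl)).symm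
    · rw [spi_ss]
      have hd := hu l d rfl
      have hd' := hv l' d' rfl
      show _ ↔ G.Adj (q n (n + 1 + l) d) (q n' (n' + 1 + l') d')
      by_cases h1 : n = n' ∧ l = l'
      · obtain ⟨rfl, rfl⟩ := h1
        rw [h.own n (n + 1 + l) d d' (by omega) hd hd']
        simp
      · constructor
        · rintro ⟨h2, h3, -⟩
          exact absurd ⟨h2, h3⟩ h1
        · intro h2
          exact absurd h2 (h.cln.qq n (n + 1 + l) d n' (n' + 1 + l') d' (by omega) (by omega) hd hd'
            (by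
              by_contra h3
              push Not at h3
              exact h1 ⟨h3.1, by omega⟩))

end Pool.Agent.K1H58.FI
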